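import Pool.Agent.helper22.GS.Spec

/-!
# Project gs, module BB (blocks, case B)
-/

set_option autoImplicit false

namespace Pool.Agent.GS

open Module

noncomputable section

/-- Two linearly independent vectors stay independent under an invertible change of basis. -/
theorem BB_indep {F V : Type} [Field F] [AddCommGroup V] [Module F V] {u v : V}
    (h : LinearIndependent F ![u, v]) (a b c d : F) (hdet : a * d - b * c ≠ 0) :
    LinearIndependent F ![a • u + b • v, c • u + d • v] := by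
  rw [LinearIndependent.pair_iff] at h ⊢
  intro s t hst
  have e : (s * a + t * c) • u + (s * b + t * d) • v = 0 := by
    rw [← hst]
    simp only [smul_add, smul_smul, add_smul]
    abel
  obtain ⟨h1, h2⟩ := h _ _ e
  have hs : (a * d - b * c) * s = 0 := by linear_combination d * h1 - c * h2
  have ht : (a * d - b * c) * t = 0 := by linear_combination a * h2 - b * h1
  exact ⟨(mul_eq_zero.mp hs).resolve_left hdet, (mul_eq_zero.mp ht).resolve_left hdet⟩

/-- Conjugation step: a product of two transvections at `v, w` generated by two conjugates of `y`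
gives the same for all other orthogonal independent pairs. -/
theorem BB_move (hWT : WT_stmt) {F V : Type} [Field F] [AddCommGroup V] [Module F V]
    [FiniteDimensional F V] {B : LinearMap.BilinForm F V} (hB : Alt B) {y : Equiv.Perm V}
    {v w v' w' : V} (h1 : LinearIndependent F ![v, w]) (h2 : LinearIndependent F ![v', w'])
    (h3 : B v w = 0) (h4 : B v' w' = 0) {a b : F} (hG : Gen B y 2 (tv B v a * tv B w b)) :
    Gen B y 2 (tv B v' a * tv B w' b) := by
  obtain ⟨g, hg, hv, hw⟩ := hWT B hB v w v' w' h1 h2 h3 h4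
  have h := Gen.conj hG hg
  have e : g * (tv B v a * tv B w b) * g⁻¹ = (g * tv B v a * g⁻¹) * (g * tv B w b * g⁻¹) := by
    group
  rw [e, tv_conj_sp hB hg, tv_conj_sp hB hg, hv, hw] at h
  exact h

theorem BB (hWT : WT_stmt) (hLC : LC_stmt) (hBC : BC_stmt) : BB_stmt := by
  intro F V _ _ _ _ _ B hB n hn hdim y ν hy hns hiso
  obtain ⟨lam, E, hlam, hν, hE, hf, hcod⟩ := hLC B hB n hn hdim y ν hy hiso
  -- the symplectic multiple of `y`
  obtain ⟨z, hzdef⟩ : ∃ z : Equiv.Perm V, z = sc V (Units.mk0 lam hlam)⁻¹ * y := ⟨_, rfl⟩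
  have hz : ∀ v, z v = lam⁻¹ • y v := by
    intro v
    rw [hzdef, Equiv.Perm.mul_apply, sc_apply]
    simp
  have hyz : ∀ v, y v = lam • z v := by
    intro v
    rw [hz, smul_smul, mul_inv_cancel₀ hlam, one_smul]
  have hzS : z ∈ SpG B := by
    refine ⟨⟨fun u v => ?_, fun c v => ?_⟩, fun u v => ?_⟩
    · rw [hz, hz, hz, hy.add, smul_add]
    · rw [hz, hz, hy.smul, smul_smul, smul_smul, RingEquiv.refl_apply, mul_comm]
    · rw [hz, hz]
      simp only [map_smul, LinearMap.smul_apply, smul_eq_mul, hy.form, RingEquiv.refl_apply, hν]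
      field_simp
  have hzE : ∀ u, u ∈ E → z u = u := by
    intro u hu
    rw [hz, (hE u).mp hu, smul_smul, inv_mul_cancel₀ hlam, one_smul]
  obtain ⟨s0, hs0⟩ := hns lam
  have hs0E : s0 ∉ E := fun h => hs0 ((hE s0).mp h)
  obtain ⟨d, hd⟩ : ∃ d, d = z s0 - s0 := ⟨_, rfl⟩
  have hdE : ∀ u ∈ E, B d u = 0 := by
    intro u hu
    have h1 := hzS.2 s0 u
    rw [hzE u hu] at h1
    rw [hd, map_sub, LinearMap.sub_apply, h1, sub_self]
  have hzs0 : z s0 = s0 + d := by rw [hd]; abel
  have hκ : B s0 d ≠ 0 := by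
    intro h0
    apply hs0E
    rw [← hf, hB.neg, hyz, map_smul, hzs0, map_add, hB.alt, h0, add_zero, smul_zero, neg_zero]
  obtain ⟨ρ, hρE, hρ0, hρs⟩ : ∃ ρ, ρ ∈ E ∧ ρ ≠ 0 ∧ B s0 ρ = 0 := by
    have hk : LinearMap.ker ((B s0).comp E.subtype) ≠ ⊥ := by
      apply LinearMap.ker_ne_bot_of_finrank_lt
      rw [finrank_self]
      omega
    obtain ⟨w, hw, hw0⟩ := (Submodule.ne_bot_iff _).mp hk
    refine ⟨w, w.2, fun h => hw0 (Subtype.ext h), ?_⟩
    simpa using hw
  have hρd : B ρ d = 0 := by rw [hB.neg, hdE ρ hρE, neg_zero]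
  have hdρ : B d ρ = 0 := hdE ρ hρE
  have hind : LinearIndependent F ![ρ, d] := by
    rw [LinearIndependent.pair_iff]
    intro s t hst
    have h1 : B s0 (s • ρ + t • d) = 0 := by rw [hst, map_zero]
    rw [map_add, map_smul, map_smul, hρs, smul_zero, zero_add, smul_eq_mul] at h1
    have ht : t = 0 := (mul_eq_zero.mp h1).resolve_right hκ
    rw [ht, zero_smul, add_zero] at hst
    exact ⟨(smul_eq_zero.mp hst).resolve_right hρ0, ht⟩
  obtain ⟨t, ht, hcom⟩ := hBC B hB z hzS y lam hlam hyz s0 d ρ hzs0 (hzE ρ hρE) hρs hρd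
  have hG : Gen B y 2 (y * t * y⁻¹ * t⁻¹) := Gen.comm ht
  obtain ⟨κ, hκdef⟩ : ∃ κ, κ = B s0 d := ⟨_, rfl⟩
  rw [← hκdef] at hκ hcom
  intro x x' s s' hxx hB0 hs hs' hsq
  by_cases h2 : ringChar F = 2
  · -- characteristic two
    have h2' : (2 : F) = 0 := by
      have := ringChar.Nat.cast_ringChar (R := F)
      rw [h2] at this
      exact_mod_cast this
    have hneg : ∀ a : F, -a = a := by
      intro a
      have : a + a = 0 := by rw [← two_mul, h2', zero_mul]
      exact neg_eq_of_add_eq_zero_left this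
    have e : y * t * y⁻¹ * t⁻¹ = tv B (ρ - κ⁻¹ • d) (-κ) * tv B d κ⁻¹ := by
      ext v
      rw [hcom, Equiv.Perm.mul_apply, tv_apply hB, tv_apply hB]
      simp only [map_add, map_sub, LinearMap.add_apply, map_smul, LinearMap.smul_apply,
        smul_eq_mul, hdρ, hB.alt, mul_zero, add_zero, sub_zero, smul_sub, smul_smul]
      have e1 : -κ * (B v ρ - κ⁻¹ * B v d) * κ⁻¹ = -(B v ρ) + κ⁻¹ * B v d := by
        field_simp
        ring
      have e2 : -κ * (B v ρ - κ⁻¹ * B v d) = B v d - κ * B v ρ := by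
        field_simp
        ring
      rw [e1, e2, sub_smul, add_smul, neg_smul]
      abel
    obtain ⟨τ, hτ⟩ := FiniteField.isSquare_of_char_two h2 κ
    obtain ⟨σ, hσ⟩ := FiniteField.isSquare_of_char_two h2 s
    obtain ⟨σ', hσ'⟩ := FiniteField.isSquare_of_char_two h2 s'
    have hτ0 : τ ≠ 0 := fun h => hκ (by rw [hτ, h, mul_zero])
    have hσ0 : σ ≠ 0 := fun h => hs (by rw [hσ, h, mul_zero])
    have hσ0' : σ' ≠ 0 := fun h => hs' (by rw [hσ', h, mul_zero])
    have e1 : tv B (ρ - κ⁻¹ • d) (-κ) = tv B (τ • ρ + (-(τ * κ⁻¹)) • d) 1 := by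
      have : τ • ρ + (-(τ * κ⁻¹)) • d = τ • (ρ - κ⁻¹ • d) := by
        rw [smul_sub, smul_smul, neg_smul]; abel
      rw [this, tv_smul hB, hneg, hτ]
      congr 1
      ring
    have e2 : tv B d κ⁻¹ = tv B ((0 : F) • ρ + τ⁻¹ • d) 1 := by
      rw [zero_smul, zero_add, tv_smul hB, hτ]
      congr 1
      field_simp
    rw [e, e1, e2] at hG
    have e3 : tv B x s = tv B (σ • x + (0 : F) • x') 1 := by
      rw [zero_smul, add_zero, tv_smul hB, hσ]
      congr 1
      ring
    have e4 : tv B x' s' = tv B ((0 : F) • x + σ' • x') 1 := by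
      rw [zero_smul, zero_add, tv_smul hB, hσ']
      congr 1
      ring
    rw [e3, e4]
    refine BB_move hWT hB (BB_indep hind _ _ _ _ ?_) (BB_indep hxx _ _ _ _ ?_) ?_ ?_ hG
    · rw [mul_zero, sub_zero, mul_inv_cancel₀ hτ0]
      exact one_ne_zero
    · rw [mul_zero, sub_zero]
      exact mul_ne_zero hσ0 hσ0'
    · simp only [map_add, LinearMap.add_apply, map_smul, LinearMap.smul_apply, smul_eq_mul, hρd,
        hB.alt, mul_zero, zero_mul, add_zero]
    · simp only [map_add, LinearMap.add_apply, map_smul, LinearMap.smul_apply, smul_eq_mul, hB0,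
        hB.alt, mul_zero, zero_mul, add_zero]
  · -- odd characteristic
    have h2' : (2 : F) ≠ 0 := Ring.two_ne_zero h2
    obtain ⟨m, hm⟩ := hsq
    rw [hν] at hm
    have hm0 : m ≠ 0 := by
      rintro rfl
      rw [mul_zero, neg_eq_zero] at hm
      exact mul_ne_zero (mul_ne_zero (pow_ne_zero 2 hlam) hs) hs' hm
    obtain ⟨μ, hμ⟩ : ∃ μ, μ = m / lam := ⟨_, rfl⟩
    have hμ0 : μ ≠ 0 := by rw [hμ]; exact div_ne_zero hm0 hlam
    have hss : s' = -(μ / s) ^ 2 * s := by
      rw [hμ]
      field_simp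
      linear_combination -hm
    obtain ⟨c, hc⟩ : ∃ c : F, c = (2 * s)⁻¹ := ⟨_, rfl⟩
    have hc0 : c ≠ 0 := by rw [hc]; exact inv_ne_zero (mul_ne_zero h2' hs)
    have hcs : 2 * c * s = 1 := by
      rw [hc]
      field_simp
    have e : y * t * y⁻¹ * t⁻¹ = tv B ((c - κ / 2) • ρ + (1 : F) • d) s *
        tv B ((c + κ / 2) • ρ + (-1 : F) • d) (-s) := by
      ext v
      rw [hcom, Equiv.Perm.mul_apply, tv_apply hB, tv_apply hB]
      simp only [map_add, LinearMap.add_apply, map_smul, LinearMap.smul_apply,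
        smul_eq_mul, hdρ, hρd, hB.alt, mul_zero, zero_mul, add_zero, smul_add, smul_smul]
      have h1 : s * ((c - κ / 2) * B v ρ + 1 * B v d) * (c - κ / 2) +
          (-s) * ((c + κ / 2) * B v ρ + -1 * B v d) * (c + κ / 2) =
          B v d - κ * B v ρ := by
        obtain ⟨k, hk⟩ : ∃ k, κ = 2 * k := ⟨κ / 2, by field_simp⟩
        have hk2 : κ / 2 = k := by rw [hk]; field_simp
        rw [hk2, hk]
        linear_combination (B v d - 2 * k * B v ρ) * hcs
      have h3 : s * ((c - κ / 2) * B v ρ + 1 * B v d) * 1 +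
          (-s) * ((c + κ / 2) * B v ρ + -1 * B v d) * (-1) = B v ρ := by
        linear_combination (B v ρ) * hcs
      have e4 : ∀ p q p' q' : F, v + (p • ρ + q • d) + (p' • ρ + q' • d) =
          v + ((p' + p) • ρ + (q' + q) • d) := by
        intro p q p' q'
        rw [add_smul, add_smul]
        abel
      rw [e4, h1, h3, sub_smul]
      abel
    rw [e] at hG
    have e3 : tv B x' s' = tv B ((0 : F) • x + (μ / s) • x') (-s) := by
      rw [zero_smul, zero_add, tv_smul hB, hss]
      congr 1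
      ring
    have e4 : tv B x s = tv B ((1 : F) • x + (0 : F) • x') s := by
      rw [zero_smul, add_zero, one_smul]
    rw [e3, e4]
    refine BB_move hWT hB (BB_indep hind _ _ _ _ ?_) (BB_indep hxx _ _ _ _ ?_) ?_ ?_ hG
    · have : (c - κ / 2) * -1 - 1 * (c + κ / 2) = -(2 * c) := by ring
      rw [this, neg_ne_zero]
      exact mul_ne_zero h2' hc0
    · rw [mul_zero, sub_zero, one_mul]
      exact div_ne_zero hμ0 hs
    · simp only [map_add, LinearMap.add_apply, map_smul, LinearMap.smul_apply, smul_eq_mul, hρd,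
        hdρ, hB.alt, mul_zero, zero_mul, add_zero]
    · simp only [map_add, LinearMap.add_apply, map_smul, LinearMap.smul_apply, smul_eq_mul, hB0,
        hB.alt, mul_zero, zero_mul, add_zero]

end

end Pool.Agent.GS
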