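import Pool.Agent.helper22.GS.Spec

/-!
# Project gs, module EX (expansion in an orthogonal basis)
-/

set_option autoImplicit false

namespace Pool.Agent.GS

open Module

noncomputable section

theorem EX : EX_stmt := by
  intro F K ι _ _ _ _ _ _ α u d hα hd hO w
  have h1 : ∀ i, Algebra.trace F K (w * u i) = u.repr (α * w) i * d i := by
    intro i
    have h2 : bf F K α (α * w) (u i) = Algebra.trace F K (w * u i) := by
      rw [bf_apply, inv_mul_cancel_left₀ hα]
    rw [← h2]
    conv_lhs => rw [← u.sum_repr (α * w)]
    rw [map_sum, LinearMap.sum_apply]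
    have h3 : ∀ j, (bf F K α) (u.repr (α * w) j • u j) (u i) =
        if j = i then u.repr (α * w) i * d i else 0 := by
      intro j
      rw [map_smul, LinearMap.smul_apply, hO j i, smul_eq_mul]
      split_ifs with h
      · rw [h]
      · rw [mul_zero]
    simp only [h3, Finset.sum_ite_eq', Finset.mem_univ, if_true]
  have h4 : ∀ i, ((d i)⁻¹ * Algebra.trace F K (w * u i)) • u i = u.repr (α * w) i • u i := by
    intro i
    rw [h1, mul_comm (u.repr (α * w) i), inv_mul_cancel_left₀ (hd i)]
  simp only [h4]
  exact u.sum_repr (α * w)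

end

end Pool.Agent.GS
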